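import Pool.Agent.H.MP_c909fd_al.Basic

namespace Pool.Agent.Results.MP_c909fd_al.NotAbelian
open CategoryTheory TopologicalSpace Filter Topology Pool.Agent.H.MP_c909fd_al

/-- Classical cosheaves of abelian groups on `X`: covariant functors from the open sets to `Ab`
which are sheaves with values in `Abᵒᵖ`; a full subcategory of the precosheaves. -/
abbrev CS (X : Type) [TopologicalSpace X] : Type 1 :=
  ObjectProperty.FullSubcategory fun A : Opens X ⥤ AddCommGrpCat.{0} =>
    Presheaf.IsSheaf (Opens.grothendieckTopology X) A.op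

theorem main (X : Type) [TopologicalSpace X] [T1Space X] [LocallyConnectedSpace X] (x : X)
    (p : ℕ → X) (hp : ∀ n, p n ≠ x) (ht : Tendsto p atTop (𝓝 x)) : IsEmpty (Abelian (CS X)) := by
  refine ⟨fun inst => ?_⟩
  let A : CS X := ⟨sky x, sky_sheaf x⟩
  let B : CS X := ⟨BF p, BF_sheaf p⟩
  let f : ℤ → (A ⟶ B) := fun a => ObjectProperty.homMk (FF p x a)
  have : Mono (f 3) := ⟨fun {C} g h e => ObjectProperty.hom_ext _
    (mono3 p hp C.property g.hom h.hom (congrArg InducedCategory.Hom.hom e))⟩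
  have : IsRegularMonoCategory (CS X) :=
    @regularMonoCategoryOfNormalMonoCategory _ _ (_) inst.toIsNormalMonoCategory
  let r := regularMonoOfMono (f 3)
  have w : f 1 ≫ r.left = f 1 ≫ r.right := ObjectProperty.hom_ext _
    (eq13 p ht r.left.hom r.right.hom (congrArg InducedCategory.Hom.hom r.w))
  obtain ⟨k, hk⟩ := Limits.Fork.IsLimit.lift' r.isLimit (f 1) w
  exact no_lift p hp k.hom (congrArg InducedCategory.Hom.hom hk)

theorem result :
    (∀ (X : Type) [TopologicalSpace X] [T1Space X] [LocallyConnectedSpace X] (x : X) (p : ℕ → X),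
      (∀ n, p n ≠ x) → Tendsto p atTop (𝓝 x) → IsEmpty (Abelian (CS X))) ∧
    IsEmpty (Abelian (CS ℝ)) :=
  ⟨main, main ℝ 0 (fun n => 1 / ((n : ℝ) + 1)) (fun n => by positivity)
    tendsto_one_div_add_atTop_nhds_zero_nat⟩

end Pool.Agent.Results.MP_c909fd_al.NotAbelian
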